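import Mathlib
import Pool.Agent.Helper213.Sidon.Window
import Pool.Agent.Helper213.Sidon.Prime

set_option autoImplicit false

namespace Pool.Agent.Results.MP_ca07c0_co.LowerConstant

open Filter

/-- The Sidon subset produced by the second moment bound, with a prime close to the optimum. -/
theorem exists_large (c : ℝ) (hc : c < 2 / (3 * Real.sqrt 3)) :
    ∀ᶠ N : ℕ in atTop, ∀ A : Finset ℝ, A.card = N →
      ∃ S ⊆ A, (∀ a ∈ S, ∀ b ∈ S, ∀ c ∈ S, ∀ d ∈ S,
          a + b = c + d → (a = c ∧ b = d) ∨ (a = d ∧ b = c)) ∧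
        c * Real.sqrt N ≤ (S.card : ℝ) := by
  set r : ℝ := Real.sqrt 3 with hr
  have hr0 : 0 < r := Real.sqrt_pos.2 (by norm_num)
  have hr2 : r * r = 3 := Real.mul_self_sqrt (by norm_num)
  -- choice of a small parameter
  have hF : ContinuousAt (fun e : ℝ => 1 / (r * (1 + e)) - 1 / (6 * (r / 2 - e)) - e) 0 := by
    refine ContinuousAt.sub (ContinuousAt.sub ?_ ?_) continuousAt_id
    · refine ContinuousAt.div continuousAt_const (by fun_prop) ?_
      simpa using hr0.ne'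
    · refine ContinuousAt.div continuousAt_const (by fun_prop) ?_
      have : r / 2 ≠ 0 := by positivity
      simpa using hr0.ne'
  have hF0 : (fun e : ℝ => 1 / (r * (1 + e)) - 1 / (6 * (r / 2 - e)) - e) 0
      = 2 / (3 * r) := by
    simp only [add_zero, sub_zero, mul_one]
    field_simp
    ring
  have hev : ∀ᶠ e : ℝ in nhds 0, c < 1 / (r * (1 + e)) - 1 / (6 * (r / 2 - e)) - e :=
    hF.eventually_const_lt (by rw [hF0]; exact hc)
  have hev2 : ∀ᶠ e : ℝ in nhds 0, e < r / 2 := gt_mem_nhds (by positivity)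
  have hev3 : ∀ᶠ e : ℝ in nhdsWithin 0 (Set.Ioi 0), e ∈ Set.Ioi (0 : ℝ) := self_mem_nhdsWithin
  obtain ⟨e, ⟨he1, he2⟩, he0⟩ :=
    (((hev.and hev2).filter_mono nhdsWithin_le_nhds).and hev3).exists
  rw [Set.mem_Ioi] at he0
  -- eventual conditions
  have hs : Tendsto (fun N : ℕ => r / 2 * Real.sqrt (N : ℝ)) atTop atTop :=
    (Real.tendsto_sqrt_atTop.comp tendsto_natCast_atTop_atTop).const_mul_atTop (by positivity)
  have hs2 : Tendsto (fun N : ℕ => e * Real.sqrt (N : ℝ)) atTop atTop :=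
    (Real.tendsto_sqrt_atTop.comp tendsto_natCast_atTop_atTop).const_mul_atTop he0
  filter_upwards [hs.eventually (Pool.Agent.Helper213.Sidon.prime_between e he0),
    hs2.eventually (eventually_ge_atTop 1), eventually_gt_atTop 0] with N hN1 hN2 hN0 A hA
  obtain ⟨p, hp, hp1, hp2⟩ := hN1
  obtain ⟨S, hSA, hS, hcard⟩ := Pool.Agent.Helper213.Sidon.finite_bound A p hp
  refine ⟨S, hSA, hS, ?_⟩
  rw [hA] at hcard
  set x : ℝ := Real.sqrt (N : ℝ) with hx
  have hNpos : (0 : ℝ) < (N : ℝ) := by exact_mod_cast hN0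
  have hx0 : 0 < x := Real.sqrt_pos.2 hNpos
  have hx2 : (N : ℝ) = x * x := (Real.mul_self_sqrt hNpos.le).symm
  rw [hx2] at hcard
  have hp0 : (0 : ℝ) < p := by exact_mod_cast hp.pos
  have he2' : 0 < r / 2 - e := by linarith
  have hb1 : x * (1 / (r * (1 + e))) ≤ x * x / (2 * p) := by
    rw [mul_one_div, div_le_div_iff₀ (by positivity) (by positivity)]
    have : 2 * (p : ℝ) ≤ x * (r * (1 + e)) := by
      have h3 : (1 + e) * (r / 2 * x) * 2 = x * (r * (1 + e)) := by ring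
      linarith
    calc x * (2 * (p : ℝ)) ≤ x * (x * (r * (1 + e))) := by gcongr
      _ = x * x * (r * (1 + e)) := by ring
  have hp1' : (r / 2 - e) * x ≤ (p : ℝ) - 1 := by
    have : (r / 2 - e) * x = r / 2 * x - e * x := by ring
    linarith
  have hq0 : 0 < (r / 2 - e) * x := by positivity
  have hb2 : (x * x) ^ 2 / (8 * (p : ℝ) ^ 2 * (p - 1)) ≤ x * (1 / (6 * (r / 2 - e))) := by
    have hsq : 3 / 4 * (x * x) ≤ (p : ℝ) ^ 2 := by
      have h4 : r / 2 * x ≤ p := hp1.le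
      have h5 : (r / 2 * x) ^ 2 ≤ (p : ℝ) ^ 2 := by gcongr
      have h6 : (r / 2 * x) ^ 2 = 3 / 4 * (x * x) := by
        calc (r / 2 * x) ^ 2 = (r * r) / 4 * (x * x) := by ring
          _ = _ := by rw [hr2]
      linarith
    calc (x * x) ^ 2 / (8 * (p : ℝ) ^ 2 * (p - 1))
        ≤ (x * x) ^ 2 / (8 * (3 / 4 * (x * x)) * ((r / 2 - e) * x)) := by gcongr
      _ = x * (1 / (6 * (r / 2 - e))) := by
          field_simp
          ring
  have hfin : c * x ≤ (1 / (r * (1 + e)) - 1 / (6 * (r / 2 - e)) - e) * x := by gcongr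
  have hexp : (1 / (r * (1 + e)) - 1 / (6 * (r / 2 - e)) - e) * x
      = x * (1 / (r * (1 + e))) - x * (1 / (6 * (r / 2 - e))) - e * x := by ring
  linarith

/-- For every `c < 2 / (3 √3)` one has `c √N ≤ l(N)` for all large `N`, where `l(N)` is the largest
size of a Sidon subset present in every set of `N` real numbers. -/
theorem result :
    ∀ c : ℝ, c < 2 / (3 * Real.sqrt 3) → ∀ᶠ N : ℕ in Filter.atTop,
      c * Real.sqrt (N : ℝ) ≤
        ((sSup {k : ℕ | ∀ A : Finset ℝ, A.card = N →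
            ∃ S ⊆ A, S.card = k ∧
              ∀ a ∈ S, ∀ b ∈ S, ∀ c ∈ S, ∀ d ∈ S,
                a + b = c + d → (a = c ∧ b = d) ∨ (a = d ∧ b = c)} : ℕ) : ℝ) := by
  intro c hc
  filter_upwards [exists_large c hc] with N hN
  set K : ℕ := ⌈c * Real.sqrt (N : ℝ)⌉₊ with hK
  have hbdd : BddAbove {k : ℕ | ∀ A : Finset ℝ, A.card = N →
            ∃ S ⊆ A, S.card = k ∧
              ∀ a ∈ S, ∀ b ∈ S, ∀ c ∈ S, ∀ d ∈ S,
                a + b = c + d → (a = c ∧ b = d) ∨ (a = d ∧ b = c)} := by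
    refine ⟨N, ?_⟩
    intro k hk
    obtain ⟨A, hA⟩ := Infinite.exists_subset_card_eq ℝ N
    obtain ⟨S, hSA, hSk, -⟩ := hk A hA
    rw [← hSk, ← hA]
    exact Finset.card_le_card hSA
  have hmem : K ∈ {k : ℕ | ∀ A : Finset ℝ, A.card = N →
            ∃ S ⊆ A, S.card = k ∧
              ∀ a ∈ S, ∀ b ∈ S, ∀ c ∈ S, ∀ d ∈ S,
                a + b = c + d → (a = c ∧ b = d) ∨ (a = d ∧ b = c)} := by
    intro A hA
    obtain ⟨S, hSA, hS, hcard⟩ := hN A hA
    have hle : K ≤ S.card := Nat.ceil_le.2 hcard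
    obtain ⟨S', hS', hc'⟩ := Finset.exists_subset_card_eq hle
    exact ⟨S', hS'.trans hSA, hc', fun a ha b hb c hc d hd h =>
      hS a (hS' ha) b (hS' hb) c (hS' hc) d (hS' hd) h⟩
  calc c * Real.sqrt (N : ℝ) ≤ (K : ℝ) := Nat.le_ceil _
    _ ≤ _ := by exact_mod_cast le_csSup hbdd hmem

end Pool.Agent.Results.MP_ca07c0_co.LowerConstant
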